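import Pool.Agent.N837.LP.FinG
import Pool.Agent.N837.LP.AppA

set_option autoImplicit false

/-!
# A positive proportion of the rows `(q r + 1)_(r ∈ R)` contains no prime

For all `K`, `C` and all large `x`: if `R` is any set of positive integers `r ≤ x ^ C` with
`∑_{r ∈ R} r / φ(r) ≤ K log x` (for instance all `r ≤ b log x`), then for a positive proportion of
the integers `x ≤ q < 2 x` none of the numbers `q r + 1`, `r ∈ R`, is prime; each has a prime factor
at most `x ^ δ`.
-/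

theorem Pool.Agent.Results.MP_d018b2_nt.EmptyRows.result (δ : ℝ) (hδ : 0 < δ) :
    ∃ C₀ : ℝ, 0 ≤ C₀ ∧ ∀ K C : ℝ, 1 ≤ K → 1 ≤ C → ∃ x₀ : ℝ, ∀ x : ℝ, x₀ ≤ x →
    ∀ R : Finset ℕ, (∀ r ∈ R, 1 ≤ r ∧ (r : ℝ) ≤ x ^ C) →
    ∑ r ∈ R, (r : ℝ) / (r.totient : ℝ) ≤ K * Real.log x →
    x * Real.exp (-Real.exp (32 * K + C₀)) ≤
      (({q : ℕ | x ≤ q ∧ (q : ℝ) < 2 * x ∧ ∀ r ∈ R, ∃ p : ℕ, p.Prime ∧ (p : ℝ) ≤ x ^ δ ∧
        p ∣ q * r + 1 ∧ p < q * r + 1}).ncard : ℝ) := by
  classical
  set δ' : ℝ := min δ (1 / 2) with hδ'def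
  have hδ' : 0 < δ' := lt_min hδ (by norm_num)
  obtain ⟨C₀, hC₀, hG⟩ := Pool.Agent.N837.LP.mainG δ' hδ'
  refine ⟨C₀ + 1, by linarith, fun K C hK hC => ?_⟩
  obtain ⟨X₀, hX₀⟩ := hG (2 * K) (2 * C) (by linarith) (by linarith)
  have h1 : ∀ᶠ X : ℝ in Filter.atTop, 2 ≤ Real.log X :=
    Real.tendsto_log_atTop.eventually_ge_atTop _
  have h3 : ∀ᶠ X : ℝ in Filter.atTop, (2:ℝ) ^ (2 * C) ≤ X ^ C :=
    (tendsto_rpow_atTop (by linarith)).eventually_ge_atTop _
  obtain ⟨X₁, hX₁⟩ := Filter.eventually_atTop.1 (h1.and (h3.and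
    (Filter.eventually_ge_atTop (max 16 (2 * X₀)))))
  refine ⟨X₁, fun x hx R hR hsum => ?_⟩
  obtain ⟨g1, g3, g4⟩ := hX₁ x hx
  have hX4 : 16 ≤ x := (le_max_left _ _).trans g4
  have hXX : X₀ ≤ x / 2 := by
    have := (le_max_right _ _).trans g4
    linarith
  have hX0 : 0 < x := by linarith
  have hpow : x ^ C ≤ (x / 2) ^ (2 * C) := by
    rw [Real.div_rpow hX0.le (by norm_num), le_div_iff₀ (by positivity)]
    have e1 : x ^ (2 * C) = x ^ C * x ^ C := by
      rw [← Real.rpow_add hX0]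
      ring_nf
    rw [e1]
    exact mul_le_mul_of_nonneg_left g3 (Real.rpow_nonneg hX0.le _)
  have hlog : Real.log x ≤ 2 * Real.log (x / 2) := by
    rw [Real.log_div hX0.ne' (by norm_num)]
    have := Real.log_two_lt_d9
    linarith
  have hone : 1 ≤ (x / 2) ^ (2 * C) := Real.one_le_rpow (by linarith) (by linarith)
  have hmain := hX₀ (x / 2) hXX {r : ℕ // r ∈ R} (fun r => (r.1 : ℤ)) (fun _ => 1) 1 one_pos
    (by rw [Nat.cast_one]; exact hone)
    (fun r => by
      have := (hR r.1 r.2).1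
      exact_mod_cast (show r.1 ≠ 0 by omega))
    (fun r => by
      have := (hR r.1 r.2).2
      rw [Int.cast_natCast, abs_of_nonneg (Nat.cast_nonneg _)]
      linarith)
    (fun _ => by
      rw [Int.cast_one, abs_one]
      exact hone)
    (fun i j hij => by
      intro h
      apply hij
      apply Subtype.ext
      have : (i.1 : ℤ) = j.1 := by linarith
      exact_mod_cast this)
    (by
      have e0 : ∑ i : {r : ℕ // r ∈ R}, ((((i.1 : ℤ).natAbs : ℕ) : ℝ) /
          (((i.1 : ℤ).natAbs.totient : ℕ) : ℝ)) = ∑ r ∈ R, (r : ℝ) / (r.totient : ℝ) := by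
        rw [← Finset.sum_coe_sort R (fun r : ℕ => (r : ℝ) / (r.totient : ℝ))]
        refine Finset.sum_congr rfl fun i _ => ?_
        rw [Int.natAbs_natCast]
      rw [e0]
      simp only [Nat.totient_one, Nat.cast_one, div_one, mul_one]
      have e2 : K * Real.log x ≤ K * (2 * Real.log (x / 2)) :=
        mul_le_mul_of_nonneg_left hlog (by linarith)
      linarith)
    x
  have hinj : ((Pool.Agent.N837.LP.RG x (x / 2) ((x / 2) ^ δ') 1
      (fun r : {r : ℕ // r ∈ R} => (r.1 : ℤ)) (fun _ => 1)).ncard : ℝ) ≤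
      (({q : ℕ | x ≤ q ∧ (q : ℝ) < 2 * x ∧ ∀ r ∈ R, ∃ p : ℕ, p.Prime ∧ (p : ℝ) ≤ x ^ δ ∧
        p ∣ q * r + 1 ∧ p < q * r + 1}).ncard : ℝ) := by
    refine Nat.cast_le.2 (Set.ncard_le_ncard_of_injOn (fun t : ℤ => t.toNat) ?_ ?_ ?_)
    · intro t ht
      obtain ⟨q1, q2, q3, q4⟩ := ht
      have ht0 : 0 < t := by
        have : (0:ℝ) < t := by linarith
        exact_mod_cast this
      have htn : ((t.toNat : ℕ) : ℤ) = t := Int.toNat_of_nonneg ht0.le
      have htr : ((t.toNat : ℕ) : ℝ) = t := by exact_mod_cast htn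
      refine ⟨?_, ?_, ?_⟩
      · show x ≤ ((t.toNat : ℕ) : ℝ)
        rw [htr]
        exact q1.le
      · show ((t.toNat : ℕ) : ℝ) < 2 * x
        rw [htr]
        linarith
      · intro r hr
        obtain ⟨p, p1, p2, p3, p4⟩ := q4 ⟨r, hr⟩
        have e1 : (p : ℝ) ≤ x ^ δ' := p2.trans
          (Real.rpow_le_rpow (by linarith) (by linarith) hδ'.le)
        have e2 : x ^ δ' ≤ x ^ (1 / 2 : ℝ) :=
          Real.rpow_le_rpow_of_exponent_le (by linarith) (min_le_right _ _)
        have e3 : x ^ (1 / 2 : ℝ) ≤ x := by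
          calc x ^ (1 / 2 : ℝ) ≤ x ^ (1 : ℝ) :=
                Real.rpow_le_rpow_of_exponent_le (by linarith) (by norm_num)
            _ = x := Real.rpow_one x
        refine ⟨p, p1, e1.trans (Real.rpow_le_rpow_of_exponent_le (by linarith)
          (min_le_left _ _)), ?_, ?_⟩
        · show p ∣ t.toNat * r + 1
          have : (p : ℤ) ∣ (((t.toNat * r + 1 : ℕ)) : ℤ) := by
            push_cast
            rw [htn, mul_comm]
            exact p4
          exact_mod_cast this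
        · show p < t.toNat * r + 1
          have hr1 := (hR r hr).1
          have e5 : (p : ℝ) ≤ ((t.toNat : ℕ) : ℝ) := by
            rw [htr]
            linarith
          have e6 : p ≤ t.toNat := by exact_mod_cast e5
          have e7 : t.toNat ≤ t.toNat * r := Nat.le_mul_of_pos_right _ (by omega)
          omega
    · intro a ha b hb hab
      obtain ⟨q1, _⟩ := ha
      obtain ⟨q1', _⟩ := hb
      have ha0 : 0 < a := by
        have : (0:ℝ) < a := by linarith
        exact_mod_cast this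
      have hb0 : 0 < b := by
        have : (0:ℝ) < b := by linarith
        exact_mod_cast this
      have : a.toNat = b.toNat := hab
      omega
    · apply (Set.finite_Iic ⌊2 * x⌋₊).subset
      intro a ha
      obtain ⟨_, h2, _⟩ := ha
      rw [Set.mem_Iic]
      exact Nat.le_floor h2.le
  refine le_trans ?_ (hmain.trans hinj)
  simp only [Nat.totient_one, Nat.cast_one, div_one, one_mul]
  have e1 : Real.exp (16 * (2 * K) + C₀) + 1 ≤ Real.exp (32 * K + (C₀ + 1)) := by
    have a0 : 32 * K + (C₀ + 1) = (16 * (2 * K) + C₀) + 1 := by ring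
    rw [a0, Real.exp_add _ 1]
    have a1 : 2 ≤ Real.exp 1 := by
      have := Real.add_one_le_exp (1:ℝ)
      linarith
    have a2 : 1 ≤ Real.exp (16 * (2 * K) + C₀) := Real.one_le_exp (by linarith)
    nlinarith
  have e2 : Real.exp (-Real.exp (32 * K + (C₀ + 1))) ≤
      Real.exp (-Real.exp (16 * (2 * K) + C₀)) * Real.exp (-1) := by
    rw [← Real.exp_add]
    apply Real.exp_le_exp.2
    linarith
  have e3 : Real.exp (-1) ≤ 1 / 2 := by
    rw [Real.exp_neg, one_div]
    have a1 : 2 ≤ Real.exp 1 := by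
      have := Real.add_one_le_exp (1:ℝ)
      linarith
    exact inv_anti₀ (by norm_num) a1
  have e4 : 0 < Real.exp (-Real.exp (16 * (2 * K) + C₀)) := Real.exp_pos _
  calc x * Real.exp (-Real.exp (32 * K + (C₀ + 1)))
      ≤ x * (Real.exp (-Real.exp (16 * (2 * K) + C₀)) * (1 / 2)) := by
        apply mul_le_mul_of_nonneg_left _ hX0.le
        exact e2.trans (mul_le_mul_of_nonneg_left e3 e4.le)
    _ = x / 2 * Real.exp (-Real.exp (16 * (2 * K) + C₀)) := by ring
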