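import Pool.Agent.N688.MV.Form

/-!
# Prime values of the forms `a_1 ^ y_1 ⋯ a_r ^ y_r * m + c`: almost all vectors of exponents in a Bohr set of `ℤ ^ r`

Fix `r, k, s ≥ 1` and `ε > 0`. There are `d, n₀, C` and `ρ, δ > 0` such that for all multiplicatively independent
numbers `a_1, …, a_r ≥ 1` prime to the integer `c`, all `H ≥ n₀` and all large `X` there is a Bohr set
`B ⊆ [-H, H]^r` of rank at most `d` and radius at least `ρ` with at least `δ H^r` elements such that all but the
proportion `ε` of the vectors `y = (y_1, …, y_k) ∈ B^k` have the following property. For every nonsingular integer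
`k × k` matrix `T` with entries at most `s` in absolute value the `k + 1` exponents `0, h_1, …, h_k ∈ ℤ^r`, where
`h = T y`, are distinct, and for EVERY set `J` of indices there are at least `X / (log X)^C` integers `m ≤ X` for
which `a^{h_i} m + c` is a prime exactly for the `i ∈ J` (`h_0 = 0`).

Method. (1) The forms `a^y m + c`, `y ∈ [0, H)^r`, are covered by almost complete random sets of mean density
`5 / 18 - ε'`: `Pool.Agent.N646.AC.covU` (helper646; Maynard-Tao sieve and the Bombieri-Davenport inequality from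
the library). (2) The differences of a dense subset of `[0, H)^r`, almost all of whose `(k + 1)`-tuples have a
translation invariant property, contain almost all vectors, and all their bounded nonsingular integral combinations,
of a Bohr set of `ℤ^r`: `Pool.Agent.N688.MV.returnsZr` (base `W` digits and a dilated version of the theorem for
`ℤ`). (3) `Pool.Agent.N688.MV.formX`: the property is invariant under translations of the exponents since
`m ↦ a^v m` is injective.
-/

set_option autoImplicit false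

open Filter Finset

namespace Pool.Agent.Results.MP_d018b2_nt.MonomialCoefficients

open Classical in
/-- The Bohr set of the vectors `b ∈ [-H, H]^r` with `|exp (2 π i (θ_1 b_1 + ⋯ + θ_r b_r)) - 1| ≤ τ` for all
`θ ∈ Θ`. -/
noncomputable def bohrSet {r : ℕ} (Θ : Finset (Fin r → ℝ)) (τ : ℝ) (H : ℕ) : Finset (Fin r → ℤ) :=
  (Fintype.piFinset (fun _ : Fin r => Icc (-(H : ℤ)) H)).filter (fun b => ∀ θ ∈ Θ,
    ‖Complex.exp (2 * Real.pi * Complex.I * ∑ l, (θ l : ℂ) * (b l : ℂ)) - 1‖ ≤ τ)

/-- The `k + 1` exponent vectors `0, (T y)_1, …, (T y)_k`, where `(T y)_i = ∑_j T_{ij} y_j ∈ ℤ^r`. -/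
def exponents {k r : ℕ} (T : Matrix (Fin k) (Fin k) ℤ) (y : Fin k → Fin r → ℤ) :
    Fin (k + 1) → Fin r → ℤ :=
  Fin.cons 0 (fun i l => ∑ j, T i j * y j l)

open Classical in
/-- The number of the `1 ≤ m ≤ X` such that the rational number `a_1^{h_1} ⋯ a_r^{h_r} m + c` is a prime for
`h = h i` if and only if `i ∈ J`. -/
noncomputable def patternCount {r k : ℕ} (a : Fin r → ℕ) (c : ℤ) (h : Fin (k + 1) → Fin r → ℤ)
    (J : Finset (Fin (k + 1))) (X : ℕ) : ℕ :=
  ((Icc 1 X).filter (fun m : ℕ => ∀ i,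
    (∃ p : ℕ, p.Prime ∧ (p : ℚ) = (∏ l, (a l : ℚ) ^ (h i l)) * m + c) ↔ i ∈ J)).card

open Classical in
/-- For `r, k, s ≥ 1` and `ε > 0` there are `d, n₀, C` and `ρ, δ > 0` such that for all multiplicatively independent
`a_1, …, a_r` prime to `c`, all `H ≥ n₀` and all large `X` there is a Bohr set of `ℤ^r` in `[-H, H]^r` of rank at
most `d`, radius at least `ρ` and density at least `δ` such that for all but the proportion `ε` of the `k`-tuples
`y` of its elements and all nonsingular integral `k × k` matrices `T` with entries at most `s` in absolute value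
all the `2^(k+1)` patterns of primes and non-primes occur at least `X / (log X)^C` times among the values at
`m ≤ X` of the `k + 1` forms `a^{h} m + c`, `h = 0, (T y)_1, …, (T y)_k`. -/
theorem result (r : ℕ) (hr : 1 ≤ r) (k s : ℕ) (hk : 1 ≤ k) (hs : 1 ≤ s) (ε : ℝ) (hε : 0 < ε) :
    ∃ (d n₀ C : ℕ) (ρ δ : ℝ), 0 < ρ ∧ 0 < δ ∧
    ∀ (a : Fin r → ℕ) (c : ℤ), (∀ l, 1 ≤ a l) → (∀ l, IsCoprime (a l : ℤ) c) →
    (∀ y y' : Fin r → ℕ, ∏ l, a l ^ y l = ∏ l, a l ^ y' l → y = y') → ∀ H : ℕ, n₀ ≤ H →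
    ∀ᶠ X : ℕ in atTop, ∃ (Θ : Finset (Fin r → ℝ)) (τ : ℝ), Θ.card ≤ d ∧
      ρ ≤ τ ∧ τ ≤ 1 ∧ δ * (H : ℝ) ^ r ≤ (bohrSet Θ τ H).card ∧
      (((Fintype.piFinset (fun _ : Fin k => bohrSet Θ τ H)).filter (fun y =>
        ¬ ∀ T : Matrix (Fin k) (Fin k) ℤ, (∀ i j, |T i j| ≤ s) → T.det ≠ 0 →
          Function.Injective (exponents T y) ∧
            ∀ J : Finset (Fin (k + 1)), (X : ℝ) / (Real.log X) ^ C ≤
              (patternCount a c (exponents T y) J X : ℝ))).card : ℝ) ≤
        ε * ((bohrSet Θ τ H).card : ℝ) ^ k := by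
  obtain ⟨d, n₀, C, ρ, δ, hρ, hδ, hmain⟩ := Pool.Agent.N688.MV.formX r hr k s hk hs ε hε
  refine ⟨d, n₀, C, ρ, δ, hρ, hδ, fun a c ha hcop hind H hH => ?_⟩
  filter_upwards [hmain a c ha hcop hind H hH] with X hX
  obtain ⟨Θ, τ, h1, h2, h3, h4, h5⟩ := hX
  refine ⟨Θ, τ, h1, h2, h3, h4, le_trans ?_ h5⟩
  rw [Nat.cast_le]
  apply card_le_card
  intro y hy
  rw [mem_filter] at hy ⊢
  refine ⟨hy.1, fun hall => hy.2 fun T hT hdet => ?_⟩
  exact hall T (Pool.Agent.N646.AC.mem_Mats.2 hT) hdet

end Pool.Agent.Results.MP_d018b2_nt.MonomialCoefficients
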