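import Mathlib
import Pool.Agent.N790.BP.MArr

/-!
# Up to bounded factors, most rows of every infinite array of `r_j` belong to one infinite exact tuplet

Let `(k_j)` and `(m_j)` be any sequences of natural numbers, `ε > 0` and `u = 1` or `u = -1`. There are numbers
`C_0, C_1, C_2, …`, which depend on nothing else, with the following property.

For EVERY sequence `V_0, V_1, V_2, …` of finite sets of positive integers with `|V_j| ≤ k_j` there is a set `S`
of positive integers such that

* for every finite set `T` of positive integers there are infinitely many `n` for which the `t ∈ T` with `t n + u`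
  prime are exactly the elements of `S ∩ T`;
* for most `j` the set `S` contains at least `m_j` of the multiples `v, 2 v, …, C_j v`, for all but at most
  `ε |V_j|` of the elements `v` of `V_j` (for all of them, if `|V_j| < 1 / ε`): the set of these `j` has upper
  density at least `1 - ε`, and more generally a weight of at least `1 - ε` for infinitely many of any given
  finitely supported probability weights `p_0, p_1, …` on the natural numbers.

The starting files contain the corresponding statement for finitely many numbers `v_1, …, v_ℓ` (with a bound
for the factors which depends on `ℓ`); here the sequence is infinite and the bound for the `j`-th factor depends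
on `j` only. The proof (`Pool.Agent.N790.BP.MLeaf`, `MConf`, `MLim`, `MArr`): the block theorem of the
starting files for infinite sequences of linear forms (`Pool.Agent.H361R2.Inf`) gives a proportion `1 / 500`;
a configuration with a small proportion placed inside the sets of multiples belonging to another one (dilated)
has a proportion which is the product, so that the proportion is at least `1 - ε` for suitable `C_j`; then
duality and the finitely additive intersectivity lemma give one set `S` for an infinite sequence.
-/

set_option autoImplicit false

namespace Pool.Agent.Results.MP_d018b2_nt.MultiplesInMostRows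

/-- `S` is an exact pattern of prime values of the forms `t n + u` -/
def ExactTuplet (u : ℤ) (S : Set ℕ) : Prop :=
  (∀ t ∈ S, 1 ≤ t) ∧ ∀ T : Finset ℕ, (∀ t ∈ T, 1 ≤ t) →
    {n : ℕ | ∀ t ∈ T, (Nat.Prime ((t : ℤ) * n + u).toNat ↔ t ∈ S)}.Infinite

open Classical in
/-- the elements `v` of `V` such that at least `m` of the numbers `v, 2 v, …, c v` belong to `S` -/
noncomputable def multiplied (S : Set ℕ) (V : Finset ℕ) (m c : ℕ) : Finset ℕ :=
  V.filter (fun v => m ≤ (S ∩ {x | ∃ k, 1 ≤ k ∧ k ≤ c ∧ x = v * k}).ncard)

open Classical in
theorem result (u : ℤ) (hu : u = 1 ∨ u = -1) (k m : ℕ → ℕ) (ε : ℝ) (hε : 0 < ε) :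
    ∃ C : ℕ → ℕ, ∀ V : ℕ → Finset ℕ, (∀ j, ∀ v ∈ V j, 1 ≤ v) → (∀ j, (V j).card ≤ k j) →
      ∀ (N : ℕ → ℕ) (p : ℕ → ℕ → ℝ), (∀ s j, 0 ≤ p s j) → (∀ s, ∑ j ∈ Finset.range (N s), p s j = 1) →
      ∃ S : Set ℕ, ExactTuplet u S ∧ ∃ᶠ s in Filter.atTop, 1 - ε ≤
        ∑ j ∈ (Finset.range (N s)).filter
          (fun j => (1 - ε) * (V j).card ≤ (multiplied S (V j) (m j) (C j)).card), p s j :=
  Pool.Agent.N790.BP.arraysM u hu k m ε hε

end Pool.Agent.Results.MP_d018b2_nt.MultiplesInMostRows
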