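import Mathlib
import Pool.Agent.N256.UT.Law

set_option autoImplicit false

/-!
# The forms `q r_j + 1`, uniformly, in every sequential random model of the primes

The question is whether the number of `q` in `[x, 2x)` for which all `q r_j + 1`, `j ≤ l`, are prime is
`(1 + o(1)) 𝔖 x / (log x)^l`, uniformly in distinct `r_1, ..., r_l ≤ b log x`.  We prove this, uniformly
even in `r_j ≤ x^C` and in the short intervals `[x, x + y)`, `x^δ ≤ y ≤ x`, in EVERY sequential random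
model of the primes: the integers are decided one after the other, only integers coprime to a fixed
`Q` can be chosen, and the conditional probability of choosing `n + 1` (coprime to `Q`) given the past
is asymptotic to `(Q / φ(Q)) / log n`.  No independence is assumed.
-/

open MeasureTheory Filter
open scoped Topology

namespace Pool.Agent.Results.MP_d018b2_nt.SievedModels

/-- the integers `q` with `x ≤ q < x + y` such that `q r + 1` belongs to `S` for all `r` in `R` -/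
def tuples (S : Set ℕ) (R : Finset ℕ) (x y : ℝ) : Set ℕ :=
  {q | x ≤ (q : ℝ) ∧ (q : ℝ) < x + y ∧ ∀ r ∈ R, q * r + 1 ∈ S}

/-- the number of residue classes `q` modulo `p` with `∏ (q r + 1) ≡ 0` modulo `p` -/
noncomputable def w (R : Finset ℕ) (p : ℕ) : ℕ := {q : ℕ | q < p ∧ p ∣ ∏ r ∈ R, (q * r + 1)}.ncard

/-- the factors of the singular product at the primes dividing `Q` -/
noncomputable def singular (Q : ℕ) (R : Finset ℕ) : ℝ :=
  ∏ p ∈ Q.primeFactors, (1 - (w R p : ℝ) / p) / (1 - 1 / (p : ℝ)) ^ R.card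

open Pool.Agent.N256.UT Pool.Agent.N909.TF

lemma singular_eq (Q : ℕ) (R : Finset ℕ) : singular Q R = sing Q R := rfl

lemma tuples_eq {Ω : Type} (A : ℕ → Set Ω) (ω : Ω) (R : Finset ℕ) (x y : ℝ) :
    tuples {k : ℕ | ω ∈ A k} R x y = {q : ℕ | ⌈x⌉₊ ≤ q ∧ q < ⌈x + y⌉₊ ∧ ∀ r ∈ R, ω ∈ A (q * r + 1)} := by
  ext q
  unfold tuples
  simp only [Set.mem_ofPred_eq, Nat.ceil_le, Nat.lt_ceil]

end Pool.Agent.Results.MP_d018b2_nt.SievedModels

open Pool.Agent.Results.MP_d018b2_nt.SievedModels Pool.Agent.N909.TF Pool.Agent.N256.UT in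
/-- Let `A n` be the event that `n` belongs to a random set adapted to a filtration `ℱ`, let
`Q ≥ 1`, let no integer which is not coprime to `Q` be chosen, and let the conditional probability of
`A (n + 1)` given `ℱ n`, times `log n`, tend to `Q / φ(Q)` along the `n` with `n + 1` coprime to `Q`,
almost surely.  For a finite set `R` of positive integers let `N(x, y; R)` be the number of the
integers `q` with `x ≤ q < x + y` for which all `q r + 1`, `r ∈ R`, are chosen, and let `𝔖_Q(R)` be the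
product of the factors of the singular product at the primes dividing `Q`.  (1) `𝔖_Q(R) ≥ 1 / Q`.
(2) Almost surely, for all `l`, `C` and `δ > 0`, as `x → ∞`, uniformly in `x^δ ≤ y ≤ x` and in all
`l`-element sets `R` of positive integers `≤ x^C`, `N(x, y; R)` is asymptotic to
`𝔖_Q(R) y / ∏ log (r x)`.  (3) Almost surely, for all `l` and `b`, as `x → ∞`, uniformly in all
`l`-element sets `R` of positive integers `≤ b log x`, `N(x, x; R)` is asymptotic to
`𝔖_Q(R) x / (log x)^l`. -/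
theorem Pool.Agent.Results.MP_d018b2_nt.SievedModels.result
    {Ω : Type} [mΩ : MeasurableSpace Ω] (μ : Measure Ω) [IsProbabilityMeasure μ]
    (ℱ : Filtration ℕ mΩ) (A : ℕ → Set Ω) (hA : ∀ n, MeasurableSet[ℱ n] (A n))
    (Q : ℕ) (hQ : 0 < Q) (hcop : ∀ n, ¬ Nat.Coprime n Q → A n = ∅)
    (hd : ∀ᵐ ω ∂μ, Tendsto (fun n : ℕ =>
      (μ[(A (n + 1)).indicator (fun _ => (1 : ℝ)) | ℱ n]) ω * Real.log n)
      (atTop ⊓ 𝓟 {n : ℕ | Nat.Coprime (n + 1) Q}) (𝓝 ((Q : ℝ) / Nat.totient Q))) :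
    (∀ R : Finset ℕ, 1 / (Q : ℝ) ≤ singular Q R) ∧
    (∀ᵐ ω ∂μ, ∀ (l : ℕ) (C δ ε : ℝ), 0 < δ → 0 < ε → ∀ᶠ x : ℝ in atTop, ∀ y : ℝ, x ^ δ ≤ y → y ≤ x →
      ∀ R : Finset ℕ, R.card = l → (∀ r ∈ R, 0 < r ∧ (r : ℝ) ≤ x ^ C) →
      |((tuples {k : ℕ | ω ∈ A k} R x y).ncard : ℝ) - singular Q R * y / ∏ r ∈ R, Real.log (r * x)| ≤
        ε * (singular Q R * y / ∏ r ∈ R, Real.log (r * x))) ∧
    (∀ᵐ ω ∂μ, ∀ (l : ℕ) (b ε : ℝ), 0 < ε → ∀ᶠ x : ℝ in atTop,
      ∀ R : Finset ℕ, R.card = l → (∀ r ∈ R, 0 < r ∧ (r : ℝ) ≤ b * Real.log x) →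
      |((tuples {k : ℕ | ω ∈ A k} R x x).ncard : ℝ) - singular Q R * x / Real.log x ^ l| ≤
        ε * (singular Q R * x / Real.log x ^ l)) := by
  classical
  have h2 : ∀ᵐ ω ∂μ, ∀ (l : ℕ) (C δ ε : ℝ), 0 < δ → 0 < ε → ∀ᶠ x : ℝ in atTop, ∀ y : ℝ, x ^ δ ≤ y → y ≤ x →
      ∀ R : Finset ℕ, R.card = l → (∀ r ∈ R, 0 < r ∧ (r : ℝ) ≤ x ^ C) →
      |((tuples {k : ℕ | ω ∈ A k} R x y).ncard : ℝ) - singular Q R * y / ∏ r ∈ R, Real.log (r * x)| ≤
        ε * (singular Q R * y / ∏ r ∈ R, Real.log (r * x)) := by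
    have h3 : ∀ᵐ ω ∂μ, ∀ l C m : ℕ, ∀ ε : ℝ, 0 < ε → ∃ N : ℕ, ∀ a b : ℕ, N ≤ a →
        (a : ℝ) ^ (1 / ((m : ℝ) + 1)) ≤ (b : ℝ) - a → b ≤ 3 * a →
        ∀ R : Finset ℕ, R.card = l → (∀ r ∈ R, 0 < r ∧ r ≤ a ^ C) →
        |({q : ℕ | a ≤ q ∧ q < b ∧ ∀ r ∈ R, ω ∈ A (q * r + 1)}.ncard : ℝ) - EE Q R a b| ≤ ε * EE Q R a b := by
      rw [ae_all_iff]
      intro l
      rw [ae_all_iff]
      intro C
      rw [ae_all_iff]
      intro m
      exact nat_law (μ := μ) hA Q hQ hcop hd l C _ (by positivity)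
    filter_upwards [h3] with ω hω l C δ ε hδ hε
    obtain ⟨m, hm⟩ := exists_nat_one_div_lt hδ
    obtain ⟨C', hC'⟩ := exists_nat_ge C
    set e : ℝ := min (ε / 3) 1 with he
    have he0 : 0 < e := by rw [he]; positivity
    have he1 : e ≤ 1 := min_le_right _ _
    have heε : 3 * e ≤ ε := by
      have : e ≤ ε / 3 := min_le_left _ _
      linarith
    obtain ⟨N, hN⟩ := hω l C' m e he0
    obtain ⟨X, hX⟩ := EE_asymp Q hQ l e he0
    have hlim : Tendsto (fun x : ℝ => x ^ δ / (x + 1) ^ (1 / ((m : ℝ) + 1))) atTop atTop := by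
      have k1 : Tendsto (fun x : ℝ => (1 / 2 : ℝ) * x ^ (δ - 1 / ((m : ℝ) + 1))) atTop atTop :=
        (tendsto_rpow_atTop (by linarith)).const_mul_atTop (by norm_num)
      refine tendsto_atTop_mono' _ ?_ k1
      filter_upwards [eventually_ge_atTop 1] with x hx
      have hx0 : 0 < x := by linarith
      rw [le_div_iff₀ (by positivity), Real.rpow_sub hx0]
      have hpm : (0 : ℝ) < 1 / ((m : ℝ) + 1) := by positivity
      have hpm1 : 1 / ((m : ℝ) + 1) ≤ (1 : ℝ) := by
        rw [div_le_one (by positivity)]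
        have : (0 : ℝ) ≤ m := Nat.cast_nonneg m
        linarith
      have k2 : (x + 1) ^ (1 / ((m : ℝ) + 1)) ≤ 2 * x ^ (1 / ((m : ℝ) + 1)) := by
        calc (x + 1) ^ (1 / ((m : ℝ) + 1)) ≤ (2 * x) ^ (1 / ((m : ℝ) + 1)) :=
              Real.rpow_le_rpow (by linarith) (by linarith) hpm.le
          _ = 2 ^ (1 / ((m : ℝ) + 1)) * x ^ (1 / ((m : ℝ) + 1)) := Real.mul_rpow (by norm_num) hx0.le
          _ ≤ 2 ^ (1 : ℝ) * x ^ (1 / ((m : ℝ) + 1)) := by
              have := Real.rpow_le_rpow_of_exponent_le (show (1 : ℝ) ≤ 2 by norm_num) hpm1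
              gcongr
          _ = _ := by rw [Real.rpow_one]
      have k3 : 0 < x ^ (1 / ((m : ℝ) + 1)) := Real.rpow_pos_of_pos hx0 _
      have k4 : 0 < x ^ δ := Real.rpow_pos_of_pos hx0 _
      calc 1 / 2 * (x ^ δ / x ^ (1 / ((m : ℝ) + 1))) * (x + 1) ^ (1 / ((m : ℝ) + 1))
          ≤ 1 / 2 * (x ^ δ / x ^ (1 / ((m : ℝ) + 1))) * (2 * x ^ (1 / ((m : ℝ) + 1))) := by gcongr
        _ = x ^ δ := by field_simp
    filter_upwards [eventually_ge_atTop (N : ℝ), eventually_ge_atTop X, eventually_ge_atTop 2,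
      hlim.eventually_ge_atTop 2, (tendsto_rpow_atTop hδ).eventually_ge_atTop (max X 2)] with x g1 g2 g3 g4 g5 y hy1 hy2 R hR hRC
    have hx0 : 0 < x := by linarith
    have a1 := Nat.le_ceil x
    have a2 := Nat.ceil_lt_add_one hx0.le
    have b1 := Nat.le_ceil (x + y)
    have hyX : X ≤ y := (le_max_left _ _).trans (g5.trans hy1)
    have hy0 : 2 ≤ y := (le_max_right _ _).trans (g5.trans hy1)
    have b2 := Nat.ceil_lt_add_one (show 0 ≤ x + y by linarith)
    have hNa : N ≤ ⌈x⌉₊ := by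
      have : (N : ℝ) ≤ ⌈x⌉₊ := g1.trans a1
      exact_mod_cast this
    have hpow : (⌈x⌉₊ : ℝ) ^ (1 / ((m : ℝ) + 1)) ≤ (⌈x + y⌉₊ : ℝ) - ⌈x⌉₊ := by
      have k1 : (⌈x⌉₊ : ℝ) ^ (1 / ((m : ℝ) + 1)) ≤ (x + 1) ^ (1 / ((m : ℝ) + 1)) :=
        Real.rpow_le_rpow (Nat.cast_nonneg _) a2.le (by positivity)
      have k2 : 2 * (x + 1) ^ (1 / ((m : ℝ) + 1)) ≤ x ^ δ := by
        rwa [le_div_iff₀ (Real.rpow_pos_of_pos (by linarith) _)] at g4
      linarith
    have hb3 : ⌈x + y⌉₊ ≤ 3 * ⌈x⌉₊ := by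
      have : (⌈x + y⌉₊ : ℝ) ≤ 3 * ⌈x⌉₊ := by linarith
      exact_mod_cast this
    have hRC' : ∀ r ∈ R, 0 < r ∧ r ≤ ⌈x⌉₊ ^ C' := by
      intro r hr
      refine ⟨(hRC r hr).1, ?_⟩
      have k1 : (r : ℝ) ≤ (⌈x⌉₊ : ℝ) ^ C' := by
        calc (r : ℝ) ≤ x ^ C := (hRC r hr).2
          _ ≤ x ^ (C' : ℝ) := Real.rpow_le_rpow_of_exponent_le (by linarith) hC'
          _ = x ^ C' := Real.rpow_natCast _ _
          _ ≤ _ := by gcongr
      exact_mod_cast k1
    have k1 := hN ⌈x⌉₊ ⌈x + y⌉₊ hNa hpow hb3 R hR hRC'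
    have k2 := hX x g2 y hyX (by linarith) R hR (fun r hr => (hRC r hr).1)
    rw [← tuples_eq] at k1
    unfold MM at k2
    rw [singular_eq]
    set M : ℝ := sing Q R * y / ∏ r ∈ R, Real.log (r * x) with hM
    set E : ℝ := EE Q R ⌈x⌉₊ ⌈x + y⌉₊ with hE
    have k3 := abs_le.1 k1
    have k4 := abs_le.1 k2
    have hM0 : 0 ≤ M := by
      by_contra hcon
      push Not at hcon
      nlinarith [k4.1, k4.2]
    have k5 : e * E ≤ e * ((1 + e) * M) := mul_le_mul_of_nonneg_left (by linarith [k4.2]) he0.le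
    have k6 : e * (e * M) ≤ 1 * (e * M) := mul_le_mul_of_nonneg_right he1 (by positivity)
    have k7 : 3 * e * M ≤ ε * M := mul_le_mul_of_nonneg_right heε hM0
    rw [abs_le]
    constructor <;> nlinarith [k3.1, k3.2, k4.1, k4.2]
  refine ⟨fun R => sing_ge Q hQ R, h2, ?_⟩
  filter_upwards [h2] with ω hω l b ε hε
  set e : ℝ := min (ε / 3) (1 / 2) with he
  have he0 : 0 < e := by rw [he]; positivity
  have he1 : e ≤ 1 / 2 := min_le_right _ _
  have heε : 3 * e ≤ ε := by
    have : e ≤ ε / 3 := min_le_left _ _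
    linarith
  have hbig : ∀ᶠ x : ℝ in atTop, b * Real.log x ≤ x ^ (1 : ℝ) := by
    have h := (Real.isLittleO_log_id_atTop.const_mul_left b).bound (show (0 : ℝ) < 1 by norm_num)
    filter_upwards [h, eventually_ge_atTop 0] with x h1 h2
    rw [Real.rpow_one]
    have h3 := (le_abs_self _).trans h1
    rwa [one_mul, id, Real.norm_of_nonneg h2] at h3
  have hl1 : ∀ᶠ x : ℝ in atTop, (1 - e) * (1 + Real.log (max b 1 * Real.log x) / Real.log x) ^ l ≤ 1 := by
    have t0 : Tendsto (fun x : ℝ => Real.log (max b 1 * Real.log x) / Real.log x) atTop (𝓝 0) := by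
      have t1 : Tendsto (fun z : ℝ => Real.log (max b 1 * z) / z) atTop (𝓝 0) := by
        have t2 : Tendsto (fun z : ℝ => Real.log (max b 1) / z + Real.log z / z) atTop (𝓝 (0 + 0)) :=
          (tendsto_id.const_div_atTop _).add Real.isLittleO_log_id_atTop.tendsto_div_nhds_zero
        rw [add_zero] at t2
        refine t2.congr' ?_
        filter_upwards [eventually_gt_atTop 0] with z hz
        rw [Real.log_mul (by positivity) hz.ne', add_div]
      exact t1.comp Real.tendsto_log_atTop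
    have t3 : Tendsto (fun x : ℝ => (1 - e) * (1 + Real.log (max b 1 * Real.log x) / Real.log x) ^ l) atTop
        (𝓝 ((1 - e) * (1 + 0) ^ l)) := ((tendsto_const_nhds.add t0).pow l).const_mul _
    have t4 : (1 - e) * (1 + 0 : ℝ) ^ l < 1 := by
      rw [add_zero, one_pow, mul_one]
      linarith
    filter_upwards [t3.eventually (gt_mem_nhds t4)] with x hx
    exact hx.le
  filter_upwards [hω l 1 (1 / 2) e (by norm_num) he0, hbig, hl1, eventually_ge_atTop 1,
    Real.tendsto_log_atTop.eventually_ge_atTop 1] with x g1 g2 g3 g4 g5 R hR hRb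
  have hx0 : 0 < x := by linarith
  have k1 := g1 x (by
    calc x ^ (1 / 2 : ℝ) ≤ x ^ (1 : ℝ) := Real.rpow_le_rpow_of_exponent_le g4 (by norm_num)
      _ = x := Real.rpow_one x) le_rfl R hR (fun r hr => ⟨(hRb r hr).1, (hRb r hr).2.trans g2⟩)
  rw [singular_eq] at k1 ⊢
  have hs := sing_ge Q hQ R
  have hQ' : (0 : ℝ) < Q := by exact_mod_cast hQ
  have hs0 : 0 < sing Q R := lt_of_lt_of_le (by positivity) hs
  have hx1 : 1 < x := by
    by_contra hcon
    push Not at hcon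
    have : x = 1 := le_antisymm hcon g4
    rw [this, Real.log_one] at g5
    linarith
  have hpl : Real.log x ^ l ≤ ∏ r ∈ R, Real.log (r * x) := by
    have hconst : Real.log x ^ l = ∏ _r ∈ R, Real.log x := by rw [Finset.prod_const, hR]
    rw [hconst]
    refine Finset.prod_le_prod (fun r hr => by linarith) fun r hr => ?_
    have : (1 : ℝ) ≤ r := by exact_mod_cast (hRb r hr).1
    exact Real.log_le_log hx0 (by nlinarith)
  have hpu : ∏ r ∈ R, Real.log (r * x) ≤ (1 + Real.log (max b 1 * Real.log x) / Real.log x) ^ l * Real.log x ^ l := by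
    have hconst : (1 + Real.log (max b 1 * Real.log x) / Real.log x) ^ l * Real.log x ^ l =
        ∏ _r ∈ R, ((1 + Real.log (max b 1 * Real.log x) / Real.log x) * Real.log x) := by
      rw [Finset.prod_const, hR, mul_pow]
    rw [hconst]
    refine Finset.prod_le_prod (fun r hr => ?_) fun r hr => ?_
    · have : (1 : ℝ) ≤ r := by exact_mod_cast (hRb r hr).1
      exact Real.log_nonneg (by nlinarith)
    · have h1 : (1 : ℝ) ≤ r := by exact_mod_cast (hRb r hr).1
      rw [Real.log_mul (by linarith) hx0.ne']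
      have h2 : Real.log r ≤ Real.log (max b 1 * Real.log x) := by
        apply Real.log_le_log (by linarith)
        exact (hRb r hr).2.trans (mul_le_mul_of_nonneg_right (le_max_left _ _) (by linarith))
      have h3 : (1 + Real.log (max b 1 * Real.log x) / Real.log x) * Real.log x =
          Real.log x + Real.log (max b 1 * Real.log x) := by
        have : Real.log x ≠ 0 := by linarith
        field_simp
      rw [h3]
      linarith
  have hP0 : 0 < Real.log x ^ l := by positivity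
  have hP1 : 0 < ∏ r ∈ R, Real.log (r * x) := lt_of_lt_of_le hP0 hpl
  set P : ℝ := ∏ r ∈ R, Real.log (r * x) with hP
  set L : ℝ := Real.log x ^ l with hL
  set V : ℝ := sing Q R * x with hV
  have hV0 : 0 < V := by positivity
  have m1 : V / P ≤ V / L := by gcongr
  have m2 : (1 - e) * (V / L) ≤ V / P := by
    rw [mul_div_assoc', div_le_div_iff₀ hP0 hP1]
    have q1 : (1 - e) * P ≤ (1 - e) * ((1 + Real.log (max b 1 * Real.log x) / Real.log x) ^ l * L) :=
      mul_le_mul_of_nonneg_left hpu (by linarith)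
    have q2 : (1 - e) * (1 + Real.log (max b 1 * Real.log x) / Real.log x) ^ l * L ≤ 1 * L :=
      mul_le_mul_of_nonneg_right g3 hP0.le
    have q3 : (1 - e) * P ≤ L := by linarith
    have q4 : V * ((1 - e) * P) ≤ V * L := mul_le_mul_of_nonneg_left q3 hV0.le
    linarith
  have k3 := abs_le.1 k1
  have n0 : 0 < V / L := by positivity
  have n1 : e * (V / P) ≤ e * (V / L) := mul_le_mul_of_nonneg_left m1 he0.le
  have n2 : 3 * e * (V / L) ≤ ε * (V / L) := mul_le_mul_of_nonneg_right heε n0.le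
  have n3 : 0 ≤ e * (V / L) := by positivity
  rw [abs_le]
  constructor <;> nlinarith [k3.1, k3.2]
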